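import Mathlib

/-!
# Seven five-dimensional permutation cubes from systems of nine permutations

Let `R` be a finite abelian group and let `y`, `z` be functions on `R` such that the nine functions
`id`, `y`, `z`, `id - y`, `id - z`, `y - z`, `id - y - z`, `id - y + z`, `id + y - z` are bijective (the
nine lines which are spanned by the seven points of the non-Fano configuration). Then there is a
variational set of seven five-dimensional permutation cubes of order `|R|`.
-/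

set_option autoImplicit false

open Function

namespace Pool.Agent.H59.PC

/-- the nine functions are injective -/
structure Sys (R : Type) [AddCommGroup R] (y z : R → R) : Prop where
  hy : Injective y
  hz : Injective z
  hxy : Injective fun j => j - y j
  hxz : Injective fun j => j - z j
  hyz : Injective fun j => y j - z j
  h1 : Injective fun j => j - y j - z j
  h2 : Injective fun j => j - y j + z j
  h3 : Injective fun j => j + y j - z j

variable {R : Type} [AddCommGroup R] {y z : R → R}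

/-- the parameters agree -/
def Same (x0 x1 x2 x3 j u0 u1 u2 u3 k : R) : Prop :=
  j = k ∧ x0 = u0 ∧ x1 = u1 ∧ x2 = u2 ∧ x3 = u3

lemma r01 (H : Sys R y z) {x0 x1 x2 x3 j u0 u1 u2 u3 k : R}
    (a2 : x2 + (y j - z j) = u2 + (y k - z k))
    (a3 : x3 + (z j - y j) = u3 + (z k - y k))
    (a4 : x0 + x1 + x3 - (j + y j - z j) = u0 + u1 + u3 - (k + y k - z k))
    (a5 : x0 + x2 + x3 - z j = u0 + u2 + u3 - z k)
    (a6 : x1 + x2 + x3 - y j = u1 + u2 + u3 - y k)
    : Same x0 x1 x2 x3 j u0 u1 u2 u3 k := by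
  have hj : j = k := H.h1 (by
    beta_reduce
    linear_combination (norm := module) (-2 : ℤ) • a2 + (-1 : ℤ) • a3 + (-1 : ℤ) • a4 + (1 : ℤ) • a5 + (1 : ℤ) • a6)
  subst hj
  exact ⟨rfl, by linear_combination (norm := module) (-1 : ℤ) • a2 + (-1 : ℤ) • a3 + (1 : ℤ) • a5,
    by linear_combination (norm := module) (-1 : ℤ) • a2 + (-1 : ℤ) • a3 + (1 : ℤ) • a6,
    by linear_combination (norm := module) (1 : ℤ) • a2,
    by linear_combination (norm := module) (1 : ℤ) • a3⟩

lemma r02 (H : Sys R y z) {x0 x1 x2 x3 j u0 u1 u2 u3 k : R}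
    (a1 : x1 + (z j - y j) = u1 + (z k - y k))
    (a3 : x3 + (z j - y j) = u3 + (z k - y k))
    (a4 : x0 + x1 + x3 - (j + y j - z j) = u0 + u1 + u3 - (k + y k - z k))
    (a5 : x0 + x2 + x3 - z j = u0 + u2 + u3 - z k)
    (a6 : x1 + x2 + x3 - y j = u1 + u2 + u3 - y k)
    : Same x0 x1 x2 x3 j u0 u1 u2 u3 k := by
  have hj : j = k := H.h2 (by
    beta_reduce
    linear_combination (norm := module) (2 : ℤ) • a1 + (1 : ℤ) • a3 + (-1 : ℤ) • a4 + (1 : ℤ) • a5 + (-1 : ℤ) • a6)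
  subst hj
  exact ⟨rfl, by linear_combination (norm := module) (-1 : ℤ) • a1 + (-1 : ℤ) • a3 + (1 : ℤ) • a4,
    by linear_combination (norm := module) (1 : ℤ) • a1,
    by linear_combination (norm := module) (-1 : ℤ) • a1 + (-1 : ℤ) • a3 + (1 : ℤ) • a6,
    by linear_combination (norm := module) (1 : ℤ) • a3⟩

lemma r03 (H : Sys R y z) {x0 x1 x2 x3 j u0 u1 u2 u3 k : R}
    (a1 : x1 + (z j - y j) = u1 + (z k - y k))
    (a2 : x2 + (y j - z j) = u2 + (y k - z k))
    (a4 : x0 + x1 + x3 - (j + y j - z j) = u0 + u1 + u3 - (k + y k - z k))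
    (a5 : x0 + x2 + x3 - z j = u0 + u2 + u3 - z k)
    (a6 : x1 + x2 + x3 - y j = u1 + u2 + u3 - y k)
    : Same x0 x1 x2 x3 j u0 u1 u2 u3 k := by
  have hj : j = k := H.hxy (by
    beta_reduce
    linear_combination (norm := module) (1 : ℤ) • a1 + (-1 : ℤ) • a2 + (-1 : ℤ) • a4 + (1 : ℤ) • a5)
  subst hj
  exact ⟨rfl, by linear_combination (norm := module) (1 : ℤ) • a2 + (1 : ℤ) • a4 + (-1 : ℤ) • a6,
    by linear_combination (norm := module) (1 : ℤ) • a1,
    by linear_combination (norm := module) (1 : ℤ) • a2,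
    by linear_combination (norm := module) (-1 : ℤ) • a1 + (-1 : ℤ) • a2 + (1 : ℤ) • a6⟩

lemma r04 (H : Sys R y z) {x0 x1 x2 x3 j u0 u1 u2 u3 k : R}
    (a1 : x1 + (z j - y j) = u1 + (z k - y k))
    (a2 : x2 + (y j - z j) = u2 + (y k - z k))
    (a3 : x3 + (z j - y j) = u3 + (z k - y k))
    (a5 : x0 + x2 + x3 - z j = u0 + u2 + u3 - z k)
    (a6 : x1 + x2 + x3 - y j = u1 + u2 + u3 - y k)
    : Same x0 x1 x2 x3 j u0 u1 u2 u3 k := by
  have hj : j = k := H.hz (by
    beta_reduce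
    linear_combination (norm := module) (1 : ℤ) • a1 + (1 : ℤ) • a2 + (1 : ℤ) • a3 + (-1 : ℤ) • a6)
  subst hj
  exact ⟨rfl, by linear_combination (norm := module) (-1 : ℤ) • a2 + (-1 : ℤ) • a3 + (1 : ℤ) • a5,
    by linear_combination (norm := module) (1 : ℤ) • a1,
    by linear_combination (norm := module) (1 : ℤ) • a2,
    by linear_combination (norm := module) (1 : ℤ) • a3⟩

lemma r05 (H : Sys R y z) {x0 x1 x2 x3 j u0 u1 u2 u3 k : R}
    (a1 : x1 + (z j - y j) = u1 + (z k - y k))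
    (a2 : x2 + (y j - z j) = u2 + (y k - z k))
    (a3 : x3 + (z j - y j) = u3 + (z k - y k))
    (a4 : x0 + x1 + x3 - (j + y j - z j) = u0 + u1 + u3 - (k + y k - z k))
    (a6 : x1 + x2 + x3 - y j = u1 + u2 + u3 - y k)
    : Same x0 x1 x2 x3 j u0 u1 u2 u3 k := by
  have hj : j = k := H.hz (by
    beta_reduce
    linear_combination (norm := module) (1 : ℤ) • a1 + (1 : ℤ) • a2 + (1 : ℤ) • a3 + (-1 : ℤ) • a6)
  subst hj
  exact ⟨rfl, by linear_combination (norm := module) (-1 : ℤ) • a1 + (-1 : ℤ) • a3 + (1 : ℤ) • a4,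
    by linear_combination (norm := module) (1 : ℤ) • a1,
    by linear_combination (norm := module) (1 : ℤ) • a2,
    by linear_combination (norm := module) (1 : ℤ) • a3⟩

lemma r06 (H : Sys R y z) {x0 x1 x2 x3 j u0 u1 u2 u3 k : R}
    (a1 : x1 + (z j - y j) = u1 + (z k - y k))
    (a2 : x2 + (y j - z j) = u2 + (y k - z k))
    (a3 : x3 + (z j - y j) = u3 + (z k - y k))
    (a4 : x0 + x1 + x3 - (j + y j - z j) = u0 + u1 + u3 - (k + y k - z k))
    (a5 : x0 + x2 + x3 - z j = u0 + u2 + u3 - z k)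
    : Same x0 x1 x2 x3 j u0 u1 u2 u3 k := by
  have hj : j = k := H.hxy (by
    beta_reduce
    linear_combination (norm := module) (1 : ℤ) • a1 + (-1 : ℤ) • a2 + (-1 : ℤ) • a4 + (1 : ℤ) • a5)
  subst hj
  exact ⟨rfl, by linear_combination (norm := module) (-1 : ℤ) • a1 + (-1 : ℤ) • a3 + (1 : ℤ) • a4,
    by linear_combination (norm := module) (1 : ℤ) • a1,
    by linear_combination (norm := module) (1 : ℤ) • a2,
    by linear_combination (norm := module) (1 : ℤ) • a3⟩

lemma r12 (H : Sys R y z) {x0 x1 x2 x3 j u0 u1 u2 u3 k : R}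
    (a0 : x0 + (y j - z j) = u0 + (y k - z k))
    (a3 : x3 + (z j - y j) = u3 + (z k - y k))
    (a4 : x0 + x1 + x3 - (j + y j - z j) = u0 + u1 + u3 - (k + y k - z k))
    (a5 : x0 + x2 + x3 - z j = u0 + u2 + u3 - z k)
    (a6 : x1 + x2 + x3 - y j = u1 + u2 + u3 - y k)
    : Same x0 x1 x2 x3 j u0 u1 u2 u3 k := by
  have hj : j = k := H.h3 (by
    beta_reduce
    linear_combination (norm := module) (2 : ℤ) • a0 + (1 : ℤ) • a3 + (-1 : ℤ) • a4 + (-1 : ℤ) • a5 + (1 : ℤ) • a6)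
  subst hj
  exact ⟨rfl, by linear_combination (norm := module) (1 : ℤ) • a0,
    by linear_combination (norm := module) (-1 : ℤ) • a0 + (-1 : ℤ) • a3 + (1 : ℤ) • a4,
    by linear_combination (norm := module) (-1 : ℤ) • a0 + (-1 : ℤ) • a3 + (1 : ℤ) • a5,
    by linear_combination (norm := module) (1 : ℤ) • a3⟩

lemma r13 (H : Sys R y z) {x0 x1 x2 x3 j u0 u1 u2 u3 k : R}
    (a0 : x0 + (y j - z j) = u0 + (y k - z k))
    (a2 : x2 + (y j - z j) = u2 + (y k - z k))
    (a4 : x0 + x1 + x3 - (j + y j - z j) = u0 + u1 + u3 - (k + y k - z k))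
    (a5 : x0 + x2 + x3 - z j = u0 + u2 + u3 - z k)
    (a6 : x1 + x2 + x3 - y j = u1 + u2 + u3 - y k)
    : Same x0 x1 x2 x3 j u0 u1 u2 u3 k := by
  have hj : j = k := H.hxz (by
    beta_reduce
    linear_combination (norm := module) (1 : ℤ) • a0 + (-1 : ℤ) • a2 + (-1 : ℤ) • a4 + (1 : ℤ) • a6)
  subst hj
  exact ⟨rfl, by linear_combination (norm := module) (1 : ℤ) • a0,
    by linear_combination (norm := module) (1 : ℤ) • a2 + (1 : ℤ) • a4 + (-1 : ℤ) • a5,
    by linear_combination (norm := module) (1 : ℤ) • a2,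
    by linear_combination (norm := module) (-1 : ℤ) • a0 + (-1 : ℤ) • a2 + (1 : ℤ) • a5⟩

lemma r14 (H : Sys R y z) {x0 x1 x2 x3 j u0 u1 u2 u3 k : R}
    (a0 : x0 + (y j - z j) = u0 + (y k - z k))
    (a2 : x2 + (y j - z j) = u2 + (y k - z k))
    (a3 : x3 + (z j - y j) = u3 + (z k - y k))
    (a5 : x0 + x2 + x3 - z j = u0 + u2 + u3 - z k)
    (a6 : x1 + x2 + x3 - y j = u1 + u2 + u3 - y k)
    : Same x0 x1 x2 x3 j u0 u1 u2 u3 k := by
  have hj : j = k := H.hy (by
    beta_reduce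
    linear_combination (norm := module) (1 : ℤ) • a0 + (1 : ℤ) • a2 + (1 : ℤ) • a3 + (-1 : ℤ) • a5)
  subst hj
  exact ⟨rfl, by linear_combination (norm := module) (1 : ℤ) • a0,
    by linear_combination (norm := module) (-1 : ℤ) • a2 + (-1 : ℤ) • a3 + (1 : ℤ) • a6,
    by linear_combination (norm := module) (1 : ℤ) • a2,
    by linear_combination (norm := module) (1 : ℤ) • a3⟩

lemma r15 (H : Sys R y z) {x0 x1 x2 x3 j u0 u1 u2 u3 k : R}
    (a0 : x0 + (y j - z j) = u0 + (y k - z k))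
    (a2 : x2 + (y j - z j) = u2 + (y k - z k))
    (a3 : x3 + (z j - y j) = u3 + (z k - y k))
    (a4 : x0 + x1 + x3 - (j + y j - z j) = u0 + u1 + u3 - (k + y k - z k))
    (a6 : x1 + x2 + x3 - y j = u1 + u2 + u3 - y k)
    : Same x0 x1 x2 x3 j u0 u1 u2 u3 k := by
  have hj : j = k := H.hxz (by
    beta_reduce
    linear_combination (norm := module) (1 : ℤ) • a0 + (-1 : ℤ) • a2 + (-1 : ℤ) • a4 + (1 : ℤ) • a6)
  subst hj
  exact ⟨rfl, by linear_combination (norm := module) (1 : ℤ) • a0,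
    by linear_combination (norm := module) (-1 : ℤ) • a0 + (-1 : ℤ) • a3 + (1 : ℤ) • a4,
    by linear_combination (norm := module) (1 : ℤ) • a2,
    by linear_combination (norm := module) (1 : ℤ) • a3⟩

lemma r16 (H : Sys R y z) {x0 x1 x2 x3 j u0 u1 u2 u3 k : R}
    (a0 : x0 + (y j - z j) = u0 + (y k - z k))
    (a2 : x2 + (y j - z j) = u2 + (y k - z k))
    (a3 : x3 + (z j - y j) = u3 + (z k - y k))
    (a4 : x0 + x1 + x3 - (j + y j - z j) = u0 + u1 + u3 - (k + y k - z k))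
    (a5 : x0 + x2 + x3 - z j = u0 + u2 + u3 - z k)
    : Same x0 x1 x2 x3 j u0 u1 u2 u3 k := by
  have hj : j = k := H.hy (by
    beta_reduce
    linear_combination (norm := module) (1 : ℤ) • a0 + (1 : ℤ) • a2 + (1 : ℤ) • a3 + (-1 : ℤ) • a5)
  subst hj
  exact ⟨rfl, by linear_combination (norm := module) (1 : ℤ) • a0,
    by linear_combination (norm := module) (-1 : ℤ) • a0 + (-1 : ℤ) • a3 + (1 : ℤ) • a4,
    by linear_combination (norm := module) (1 : ℤ) • a2,
    by linear_combination (norm := module) (1 : ℤ) • a3⟩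

lemma r23 (H : Sys R y z) {x0 x1 x2 x3 j u0 u1 u2 u3 k : R}
    (a0 : x0 + (y j - z j) = u0 + (y k - z k))
    (a1 : x1 + (z j - y j) = u1 + (z k - y k))
    (a4 : x0 + x1 + x3 - (j + y j - z j) = u0 + u1 + u3 - (k + y k - z k))
    (a5 : x0 + x2 + x3 - z j = u0 + u2 + u3 - z k)
    (a6 : x1 + x2 + x3 - y j = u1 + u2 + u3 - y k)
    : Same x0 x1 x2 x3 j u0 u1 u2 u3 k := by
  have hj : j = k := H.hyz (by
    beta_reduce
    linear_combination (norm := module) (1 : ℤ) • a0 + (-1 : ℤ) • a1 + (-1 : ℤ) • a5 + (1 : ℤ) • a6)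
  subst hj
  exact ⟨rfl, by linear_combination (norm := module) (1 : ℤ) • a0,
    by linear_combination (norm := module) (1 : ℤ) • a1,
    by linear_combination (norm := module) (1 : ℤ) • a1 + (-1 : ℤ) • a4 + (1 : ℤ) • a5,
    by linear_combination (norm := module) (-1 : ℤ) • a0 + (-1 : ℤ) • a1 + (1 : ℤ) • a4⟩

lemma r24 (H : Sys R y z) {x0 x1 x2 x3 j u0 u1 u2 u3 k : R}
    (a0 : x0 + (y j - z j) = u0 + (y k - z k))
    (a1 : x1 + (z j - y j) = u1 + (z k - y k))
    (a3 : x3 + (z j - y j) = u3 + (z k - y k))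
    (a5 : x0 + x2 + x3 - z j = u0 + u2 + u3 - z k)
    (a6 : x1 + x2 + x3 - y j = u1 + u2 + u3 - y k)
    : Same x0 x1 x2 x3 j u0 u1 u2 u3 k := by
  have hj : j = k := H.hyz (by
    beta_reduce
    linear_combination (norm := module) (1 : ℤ) • a0 + (-1 : ℤ) • a1 + (-1 : ℤ) • a5 + (1 : ℤ) • a6)
  subst hj
  exact ⟨rfl, by linear_combination (norm := module) (1 : ℤ) • a0,
    by linear_combination (norm := module) (1 : ℤ) • a1,
    by linear_combination (norm := module) (-1 : ℤ) • a0 + (-1 : ℤ) • a3 + (1 : ℤ) • a5,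
    by linear_combination (norm := module) (1 : ℤ) • a3⟩

lemma r25 (H : Sys R y z) {x0 x1 x2 x3 j u0 u1 u2 u3 k : R}
    (a0 : x0 + (y j - z j) = u0 + (y k - z k))
    (a1 : x1 + (z j - y j) = u1 + (z k - y k))
    (a3 : x3 + (z j - y j) = u3 + (z k - y k))
    (a4 : x0 + x1 + x3 - (j + y j - z j) = u0 + u1 + u3 - (k + y k - z k))
    (a6 : x1 + x2 + x3 - y j = u1 + u2 + u3 - y k)
    : Same x0 x1 x2 x3 j u0 u1 u2 u3 k := by
  have hj : j = k := by linear_combination (norm := module) (1 : ℤ) • a0 + (1 : ℤ) • a1 + (1 : ℤ) • a3 + (-1 : ℤ) • a4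
  subst hj
  exact ⟨rfl, by linear_combination (norm := module) (1 : ℤ) • a0,
    by linear_combination (norm := module) (1 : ℤ) • a1,
    by linear_combination (norm := module) (-1 : ℤ) • a1 + (-1 : ℤ) • a3 + (1 : ℤ) • a6,
    by linear_combination (norm := module) (1 : ℤ) • a3⟩

lemma r26 (H : Sys R y z) {x0 x1 x2 x3 j u0 u1 u2 u3 k : R}
    (a0 : x0 + (y j - z j) = u0 + (y k - z k))
    (a1 : x1 + (z j - y j) = u1 + (z k - y k))
    (a3 : x3 + (z j - y j) = u3 + (z k - y k))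
    (a4 : x0 + x1 + x3 - (j + y j - z j) = u0 + u1 + u3 - (k + y k - z k))
    (a5 : x0 + x2 + x3 - z j = u0 + u2 + u3 - z k)
    : Same x0 x1 x2 x3 j u0 u1 u2 u3 k := by
  have hj : j = k := by linear_combination (norm := module) (1 : ℤ) • a0 + (1 : ℤ) • a1 + (1 : ℤ) • a3 + (-1 : ℤ) • a4
  subst hj
  exact ⟨rfl, by linear_combination (norm := module) (1 : ℤ) • a0,
    by linear_combination (norm := module) (1 : ℤ) • a1,
    by linear_combination (norm := module) (-1 : ℤ) • a0 + (-1 : ℤ) • a3 + (1 : ℤ) • a5,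
    by linear_combination (norm := module) (1 : ℤ) • a3⟩

lemma r34 (H : Sys R y z) {x0 x1 x2 x3 j u0 u1 u2 u3 k : R}
    (a0 : x0 + (y j - z j) = u0 + (y k - z k))
    (a1 : x1 + (z j - y j) = u1 + (z k - y k))
    (a2 : x2 + (y j - z j) = u2 + (y k - z k))
    (a5 : x0 + x2 + x3 - z j = u0 + u2 + u3 - z k)
    (a6 : x1 + x2 + x3 - y j = u1 + u2 + u3 - y k)
    : Same x0 x1 x2 x3 j u0 u1 u2 u3 k := by
  have hj : j = k := H.hyz (by
    beta_reduce
    linear_combination (norm := module) (1 : ℤ) • a0 + (-1 : ℤ) • a1 + (-1 : ℤ) • a5 + (1 : ℤ) • a6)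
  subst hj
  exact ⟨rfl, by linear_combination (norm := module) (1 : ℤ) • a0,
    by linear_combination (norm := module) (1 : ℤ) • a1,
    by linear_combination (norm := module) (1 : ℤ) • a2,
    by linear_combination (norm := module) (-1 : ℤ) • a0 + (-1 : ℤ) • a2 + (1 : ℤ) • a5⟩

lemma r35 (H : Sys R y z) {x0 x1 x2 x3 j u0 u1 u2 u3 k : R}
    (a0 : x0 + (y j - z j) = u0 + (y k - z k))
    (a1 : x1 + (z j - y j) = u1 + (z k - y k))
    (a2 : x2 + (y j - z j) = u2 + (y k - z k))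
    (a4 : x0 + x1 + x3 - (j + y j - z j) = u0 + u1 + u3 - (k + y k - z k))
    (a6 : x1 + x2 + x3 - y j = u1 + u2 + u3 - y k)
    : Same x0 x1 x2 x3 j u0 u1 u2 u3 k := by
  have hj : j = k := H.hxz (by
    beta_reduce
    linear_combination (norm := module) (1 : ℤ) • a0 + (-1 : ℤ) • a2 + (-1 : ℤ) • a4 + (1 : ℤ) • a6)
  subst hj
  exact ⟨rfl, by linear_combination (norm := module) (1 : ℤ) • a0,
    by linear_combination (norm := module) (1 : ℤ) • a1,
    by linear_combination (norm := module) (1 : ℤ) • a2,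
    by linear_combination (norm := module) (-1 : ℤ) • a0 + (-1 : ℤ) • a1 + (1 : ℤ) • a4⟩

lemma r36 (H : Sys R y z) {x0 x1 x2 x3 j u0 u1 u2 u3 k : R}
    (a0 : x0 + (y j - z j) = u0 + (y k - z k))
    (a1 : x1 + (z j - y j) = u1 + (z k - y k))
    (a2 : x2 + (y j - z j) = u2 + (y k - z k))
    (a4 : x0 + x1 + x3 - (j + y j - z j) = u0 + u1 + u3 - (k + y k - z k))
    (a5 : x0 + x2 + x3 - z j = u0 + u2 + u3 - z k)
    : Same x0 x1 x2 x3 j u0 u1 u2 u3 k := by
  have hj : j = k := H.hxy (by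
    beta_reduce
    linear_combination (norm := module) (1 : ℤ) • a1 + (-1 : ℤ) • a2 + (-1 : ℤ) • a4 + (1 : ℤ) • a5)
  subst hj
  exact ⟨rfl, by linear_combination (norm := module) (1 : ℤ) • a0,
    by linear_combination (norm := module) (1 : ℤ) • a1,
    by linear_combination (norm := module) (1 : ℤ) • a2,
    by linear_combination (norm := module) (-1 : ℤ) • a0 + (-1 : ℤ) • a1 + (1 : ℤ) • a4⟩

lemma r45 (H : Sys R y z) {x0 x1 x2 x3 j u0 u1 u2 u3 k : R}
    (a0 : x0 + (y j - z j) = u0 + (y k - z k))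
    (a1 : x1 + (z j - y j) = u1 + (z k - y k))
    (a2 : x2 + (y j - z j) = u2 + (y k - z k))
    (a3 : x3 + (z j - y j) = u3 + (z k - y k))
    (a6 : x1 + x2 + x3 - y j = u1 + u2 + u3 - y k)
    : Same x0 x1 x2 x3 j u0 u1 u2 u3 k := by
  have hj : j = k := H.hz (by
    beta_reduce
    linear_combination (norm := module) (1 : ℤ) • a1 + (1 : ℤ) • a2 + (1 : ℤ) • a3 + (-1 : ℤ) • a6)
  subst hj
  exact ⟨rfl, by linear_combination (norm := module) (1 : ℤ) • a0,
    by linear_combination (norm := module) (1 : ℤ) • a1,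
    by linear_combination (norm := module) (1 : ℤ) • a2,
    by linear_combination (norm := module) (1 : ℤ) • a3⟩

lemma r46 (H : Sys R y z) {x0 x1 x2 x3 j u0 u1 u2 u3 k : R}
    (a0 : x0 + (y j - z j) = u0 + (y k - z k))
    (a1 : x1 + (z j - y j) = u1 + (z k - y k))
    (a2 : x2 + (y j - z j) = u2 + (y k - z k))
    (a3 : x3 + (z j - y j) = u3 + (z k - y k))
    (a5 : x0 + x2 + x3 - z j = u0 + u2 + u3 - z k)
    : Same x0 x1 x2 x3 j u0 u1 u2 u3 k := by
  have hj : j = k := H.hy (by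
    beta_reduce
    linear_combination (norm := module) (1 : ℤ) • a0 + (1 : ℤ) • a2 + (1 : ℤ) • a3 + (-1 : ℤ) • a5)
  subst hj
  exact ⟨rfl, by linear_combination (norm := module) (1 : ℤ) • a0,
    by linear_combination (norm := module) (1 : ℤ) • a1,
    by linear_combination (norm := module) (1 : ℤ) • a2,
    by linear_combination (norm := module) (1 : ℤ) • a3⟩

lemma r56 (H : Sys R y z) {x0 x1 x2 x3 j u0 u1 u2 u3 k : R}
    (a0 : x0 + (y j - z j) = u0 + (y k - z k))
    (a1 : x1 + (z j - y j) = u1 + (z k - y k))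
    (a2 : x2 + (y j - z j) = u2 + (y k - z k))
    (a3 : x3 + (z j - y j) = u3 + (z k - y k))
    (a4 : x0 + x1 + x3 - (j + y j - z j) = u0 + u1 + u3 - (k + y k - z k))
    : Same x0 x1 x2 x3 j u0 u1 u2 u3 k := by
  have hj : j = k := by linear_combination (norm := module) (1 : ℤ) • a0 + (1 : ℤ) • a1 + (1 : ℤ) • a3 + (-1 : ℤ) • a4
  subst hj
  exact ⟨rfl, by linear_combination (norm := module) (1 : ℤ) • a0,
    by linear_combination (norm := module) (1 : ℤ) • a1,
    by linear_combination (norm := module) (1 : ℤ) • a2,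
    by linear_combination (norm := module) (1 : ℤ) • a3⟩

end Pool.Agent.H59.PC
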