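import Pool.Agent.H59.PC.Tab

/-!
# Tables for the orders `5 q`
-/

set_option autoImplicit false
set_option maxRecDepth 100000

open Function
open Pool.Agent.Results.MP_c7a479_co.VarSets (HasVarSet)

namespace Pool.Agent.H59.PC

theorem base_35 : HasVarSet 5 35 7 :=
  hasVarSet_table 34
    ([0, 7, 11, 31, 9, 21, 5, 22, 18, 27, 33, 15, 1, 10, 16, 23, 29, 3, 32, 6, 12, 19, 25, 34, 20, 2,
      8, 17, 13, 30, 14, 26, 4, 24, 28])
    ([0, 32, 7, 20, 29, 34, 13, 16, 23, 11, 26, 14, 4, 27, 25, 2, 17, 5, 30, 18, 33, 10, 8, 31, 21,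
      9, 24, 12, 19, 22, 1, 6, 15, 28, 3]) (by decide +kernel)

theorem base_55 : HasVarSet 5 55 7 :=
  hasVarSet_table 54
    ([0, 47, 12, 22, 15, 26, 24, 1, 48, 34, 9, 52, 41, 20, 53, 32, 13, 37, 30, 6, 16, 45, 44, 51, 19,
      17, 28, 50, 5, 27, 38, 36, 4, 11, 10, 39, 49, 25, 18, 42, 23, 2, 35, 14, 3, 46, 21, 7, 54, 31,
      29, 40, 33, 43, 8])
    ([0, 7, 41, 44, 32, 28, 19, 47, 54, 10, 34, 33, 2, 16, 43, 4, 20, 25, 38, 24, 13, 46, 3, 40, 6,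
      37, 5, 29, 26, 50, 18, 49, 15, 52, 9, 42, 31, 17, 30, 35, 51, 12, 39, 53, 22, 21, 45, 1, 8, 36,
      27, 23, 11, 14, 48]) (by decide +kernel)

theorem base_65 : HasVarSet 5 65 7 :=
  hasVarSet_table 64
    ([0, 10, 26, 64, 47, 58, 32, 35, 15, 45, 59, 21, 42, 12, 37, 17, 13, 4, 29, 25, 41, 16, 5, 38,
      57, 56, 34, 2, 46, 43, 3, 11, 51, 14, 54, 62, 22, 19, 63, 31, 9, 8, 27, 60, 49, 24, 40, 36, 61,
      52, 48, 28, 53, 23, 44, 6, 20, 50, 30, 33, 7, 18, 1, 39, 55])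
    ([0, 53, 59, 52, 54, 14, 60, 29, 34, 28, 44, 46, 45, 61, 55, 27, 17, 40, 15, 24, 2, 58, 62, 43,
      26, 18, 32, 56, 1, 8, 16, 35, 42, 23, 30, 49, 57, 64, 9, 33, 47, 39, 22, 3, 7, 63, 41, 50, 25,
      48, 38, 10, 4, 20, 19, 21, 37, 31, 36, 5, 51, 11, 13, 6, 12]) (by decide +kernel)

theorem base_85 : HasVarSet 5 85 7 :=
  hasVarSet_table 84
    ([0, 41, 22, 42, 73, 24, 74, 58, 38, 83, 19, 55, 25, 23, 15, 52, 75, 5, 82, 69, 28, 39, 76, 56,
      17, 81, 31, 50, 34, 72, 6, 53, 59, 71, 20, 7, 21, 1, 40, 36, 8, 37, 67, 18, 48, 77, 49, 45, 84,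
      64, 78, 65, 14, 26, 32, 79, 13, 51, 35, 54, 4, 68, 29, 9, 46, 57, 16, 3, 80, 10, 33, 70, 62, 60,
      30, 66, 2, 47, 27, 11, 61, 12, 43, 63, 44])
    ([0, 37, 76, 67, 60, 17, 30, 35, 40, 63, 69, 79, 81, 56, 52, 14, 66, 24, 43, 10, 34, 36, 2, 13,
      5, 12, 53, 78, 20, 62, 74, 26, 54, 70, 28, 58, 39, 41, 8, 21, 38, 1, 3, 82, 84, 47, 64, 77, 44,
      46, 27, 57, 15, 31, 59, 11, 23, 65, 7, 32, 73, 80, 72, 83, 49, 51, 75, 42, 61, 19, 71, 33, 29,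
      4, 6, 16, 22, 45, 50, 55, 68, 25, 18, 9, 48]) (by decide +kernel)

/-- the group with 45 elements -/
abbrev G45 : Type := ZMod 5 × ZMod 3 × ZMod 3

def enc45 (g : G45) : ℕ := 9 * g.1.val + g.2.1.val + 3 * g.2.2.val

def dec45 (k : ℕ) : G45 := (((k / 9 : ℕ) : ZMod 5), ((k % 3 : ℕ) : ZMod 3), ((k / 3 % 3 : ℕ) : ZMod 3))

def y45 (g : G45) : G45 := dec45 (([0, 42, 12, 28, 11, 24, 20, 30, 37, 17, 18, 29, 31, 2, 4, 16, 21, 34, 25, 22, 14, 36, 38, 6, 15,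
      13, 5, 32, 43, 35, 39, 7, 44, 9, 3, 10, 40, 19, 27, 41, 23, 33, 26, 8, 1]).getD (enc45 g) 0)

def z45 (g : G45) : G45 := dec45 (([0, 35, 22, 16, 26, 43, 41, 14, 31, 3, 21, 13, 4, 40, 12, 27, 19, 37, 2, 9, 5, 38, 39, 32, 23,
      30, 20, 1, 7, 36, 34, 28, 24, 10, 25, 15, 6, 44, 33, 18, 11, 29, 8, 42, 17]).getD (enc45 g) 0)

lemma sys45 : Sys G45 y45 z45 where
  hy := by unfold Injective; decide +kernel
  hz := by unfold Injective; decide +kernel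
  hxy := by unfold Injective; decide +kernel
  hxz := by unfold Injective; decide +kernel
  hyz := by unfold Injective; decide +kernel
  h1 := by unfold Injective; decide +kernel
  h2 := by unfold Injective; decide +kernel
  h3 := by unfold Injective; decide +kernel

theorem base_45 : HasVarSet 5 45 7 := by
  have h := hasVarSet sys45
  rwa [Nat.card_prod, Nat.card_prod, Nat.card_zmod, Nat.card_zmod] at h

/-- the group with 40 elements -/
abbrev G40 : Type := ZMod 5 × ZMod 2 × ZMod 2 × ZMod 2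

def enc40 (g : G40) : ℕ := 8 * g.1.val + g.2.1.val + 2 * g.2.2.1.val + 4 * g.2.2.2.val

def dec40 (k : ℕ) : G40 :=
  (((k / 8 : ℕ) : ZMod 5), ((k % 2 : ℕ) : ZMod 2), ((k / 2 % 2 : ℕ) : ZMod 2), ((k / 4 % 2 : ℕ) : ZMod 2))

def y40 (g : G40) : G40 := dec40 (([0, 25, 39, 7, 30, 18, 29, 32, 37, 12, 13, 31, 21, 6, 24, 16, 14, 8, 19, 4, 33, 38, 10, 20, 9,
      34, 36, 35, 5, 27, 28, 23, 26, 3, 22, 11, 1, 15, 2, 17]).getD (enc40 g) 0)

def z40 (g : G40) : G40 := dec40 (([0, 38, 15, 5, 34, 33, 21, 30, 17, 24, 16, 39, 18, 37, 9, 12, 11, 35, 36, 27, 7, 20, 19, 14, 10,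
      1, 6, 13, 32, 31, 26, 2, 3, 22, 23, 4, 25, 29, 28, 8]).getD (enc40 g) 0)

lemma sys40 : Sys G40 y40 z40 where
  hy := by unfold Injective; decide +kernel
  hz := by unfold Injective; decide +kernel
  hxy := by unfold Injective; decide +kernel
  hxz := by unfold Injective; decide +kernel
  hyz := by unfold Injective; decide +kernel
  h1 := by unfold Injective; decide +kernel
  h2 := by unfold Injective; decide +kernel
  h3 := by unfold Injective; decide +kernel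

theorem base_40 : HasVarSet 5 40 7 := by
  have h := hasVarSet sys40
  rwa [Nat.card_prod, Nat.card_prod, Nat.card_prod, Nat.card_zmod, Nat.card_zmod] at h

end Pool.Agent.H59.PC
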