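import Pool.Agent.H59.PC.Core
import Pool.Graph.R_pool_sql_team_b88adf34.Results.MP_c7a479_co.VarSets

/-!
# Seven five-dimensional permutation cubes from systems of nine permutations: the cubes
-/

set_option autoImplicit false
set_option linter.unusedTactic false
set_option linter.unusedSimpArgs false

open Function Finset
open Pool.Agent.Results.MP_c7a479_co.VarSets (IsPermCube IsVarSet HasVarSet)

namespace Pool.Agent.H59.PC

variable {R : Type} [AddCommGroup R] {y z : R → R}

/-- the sum of the coordinates -/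
def tot (X : Fin 5 → R) : R := X 0 + X 1 + X 2 + X 3 + X 4

/-- the seven cubes -/
def cube (y z : R → R) : Fin 7 → (Fin 5 → R) → R
  | 0, X => X 0 + (y (tot X) - z (tot X))
  | 1, X => X 1 + (z (tot X) - y (tot X))
  | 2, X => X 2 + (y (tot X) - z (tot X))
  | 3, X => X 3 + (z (tot X) - y (tot X))
  | 4, X => X 0 + X 1 + X 3 - (tot X + y (tot X) - z (tot X))
  | 5, X => X 0 + X 2 + X 3 - z (tot X)
  | 6, X => X 1 + X 2 + X 3 - y (tot X)

lemma Same.eq {X U : Fin 5 → R}
    (h : Same (X 0) (X 1) (X 2) (X 3) (tot X) (U 0) (U 1) (U 2) (U 3) (tot U)) : X = U := by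
  obtain ⟨hj, h0, h1, h2, h3⟩ := h
  have h4 : X 4 = U 4 := by
    unfold tot at hj
    rw [h0, h1, h2, h3] at hj
    exact add_left_cancel hj
  funext i
  fin_cases i
  · exact h0
  · exact h1
  · exact h2
  · exact h3
  · exact h4

lemma tot_update (X : Fin 5 → R) (i : Fin 5) (a : R) :
    tot (update X i a) = a + (tot X - X i) := by
  fin_cases i <;> simp [tot, update_apply] <;> abel

/-- every cube is a permutation cube -/
lemma perm (H : Sys R y z) (e : Fin 7) (X : Fin 5 → R) (i : Fin 5) :
    Injective fun a => cube y z e (update X i a) := by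
  intro a b hab
  simp only at hab
  have ha := tot_update X i a
  have hb := tot_update X i b
  have key : a + (tot X - X i) = b + (tot X - X i) := by
    generalize tot X - X i = s at ha hb ⊢
    fin_cases e <;> fin_cases i <;>
      simp only [cube, Fin.zero_eta, Fin.mk_one, Fin.reduceFinMk] at hab ha hb ⊢ <;>
      rw [ha, hb] at hab <;>
      simp [update_apply] at hab <;>
      first
      | (refine H.hyz ?_; beta_reduce; linear_combination (norm := abel1) hab)
      | (refine H.hyz ?_; beta_reduce; linear_combination (norm := abel1) -hab)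
      | (refine H.hy ?_; beta_reduce; linear_combination (norm := abel1) hab)
      | (refine H.hy ?_; beta_reduce; linear_combination (norm := abel1) -hab)
      | (refine H.hz ?_; beta_reduce; linear_combination (norm := abel1) hab)
      | (refine H.hz ?_; beta_reduce; linear_combination (norm := abel1) -hab)
      | (refine H.hxy ?_; beta_reduce; linear_combination (norm := abel1) hab)
      | (refine H.hxy ?_; beta_reduce; linear_combination (norm := abel1) -hab)
      | (refine H.hxz ?_; beta_reduce; linear_combination (norm := abel1) hab)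
      | (refine H.hxz ?_; beta_reduce; linear_combination (norm := abel1) -hab)
      | (refine H.h2 ?_; beta_reduce; linear_combination (norm := abel1) hab)
      | (refine H.h2 ?_; beta_reduce; linear_combination (norm := abel1) -hab)
      | (refine H.h3 ?_; beta_reduce; linear_combination (norm := abel1) hab)
      | (refine H.h3 ?_; beta_reduce; linear_combination (norm := abel1) -hab)
  exact add_right_cancel key

lemma j01 (H : Sys R y z) {X U : Fin 5 → R}
    (h : ∀ e : Fin 7, e ≠ 0 → e ≠ 1 → cube y z e X = cube y z e U) : X = U :=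
  Same.eq (r01 H (h 2 (by decide) (by decide)) (h 3 (by decide) (by decide)) (h 4 (by decide) (by decide)) (h 5 (by decide) (by decide)) (h 6 (by decide) (by decide)))

lemma j02 (H : Sys R y z) {X U : Fin 5 → R}
    (h : ∀ e : Fin 7, e ≠ 0 → e ≠ 2 → cube y z e X = cube y z e U) : X = U :=
  Same.eq (r02 H (h 1 (by decide) (by decide)) (h 3 (by decide) (by decide)) (h 4 (by decide) (by decide)) (h 5 (by decide) (by decide)) (h 6 (by decide) (by decide)))

lemma j03 (H : Sys R y z) {X U : Fin 5 → R}
    (h : ∀ e : Fin 7, e ≠ 0 → e ≠ 3 → cube y z e X = cube y z e U) : X = U :=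
  Same.eq (r03 H (h 1 (by decide) (by decide)) (h 2 (by decide) (by decide)) (h 4 (by decide) (by decide)) (h 5 (by decide) (by decide)) (h 6 (by decide) (by decide)))

lemma j04 (H : Sys R y z) {X U : Fin 5 → R}
    (h : ∀ e : Fin 7, e ≠ 0 → e ≠ 4 → cube y z e X = cube y z e U) : X = U :=
  Same.eq (r04 H (h 1 (by decide) (by decide)) (h 2 (by decide) (by decide)) (h 3 (by decide) (by decide)) (h 5 (by decide) (by decide)) (h 6 (by decide) (by decide)))

lemma j05 (H : Sys R y z) {X U : Fin 5 → R}
    (h : ∀ e : Fin 7, e ≠ 0 → e ≠ 5 → cube y z e X = cube y z e U) : X = U :=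
  Same.eq (r05 H (h 1 (by decide) (by decide)) (h 2 (by decide) (by decide)) (h 3 (by decide) (by decide)) (h 4 (by decide) (by decide)) (h 6 (by decide) (by decide)))

lemma j06 (H : Sys R y z) {X U : Fin 5 → R}
    (h : ∀ e : Fin 7, e ≠ 0 → e ≠ 6 → cube y z e X = cube y z e U) : X = U :=
  Same.eq (r06 H (h 1 (by decide) (by decide)) (h 2 (by decide) (by decide)) (h 3 (by decide) (by decide)) (h 4 (by decide) (by decide)) (h 5 (by decide) (by decide)))

lemma j12 (H : Sys R y z) {X U : Fin 5 → R}
    (h : ∀ e : Fin 7, e ≠ 1 → e ≠ 2 → cube y z e X = cube y z e U) : X = U :=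
  Same.eq (r12 H (h 0 (by decide) (by decide)) (h 3 (by decide) (by decide)) (h 4 (by decide) (by decide)) (h 5 (by decide) (by decide)) (h 6 (by decide) (by decide)))

lemma j13 (H : Sys R y z) {X U : Fin 5 → R}
    (h : ∀ e : Fin 7, e ≠ 1 → e ≠ 3 → cube y z e X = cube y z e U) : X = U :=
  Same.eq (r13 H (h 0 (by decide) (by decide)) (h 2 (by decide) (by decide)) (h 4 (by decide) (by decide)) (h 5 (by decide) (by decide)) (h 6 (by decide) (by decide)))

lemma j14 (H : Sys R y z) {X U : Fin 5 → R}
    (h : ∀ e : Fin 7, e ≠ 1 → e ≠ 4 → cube y z e X = cube y z e U) : X = U :=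
  Same.eq (r14 H (h 0 (by decide) (by decide)) (h 2 (by decide) (by decide)) (h 3 (by decide) (by decide)) (h 5 (by decide) (by decide)) (h 6 (by decide) (by decide)))

lemma j15 (H : Sys R y z) {X U : Fin 5 → R}
    (h : ∀ e : Fin 7, e ≠ 1 → e ≠ 5 → cube y z e X = cube y z e U) : X = U :=
  Same.eq (r15 H (h 0 (by decide) (by decide)) (h 2 (by decide) (by decide)) (h 3 (by decide) (by decide)) (h 4 (by decide) (by decide)) (h 6 (by decide) (by decide)))

lemma j16 (H : Sys R y z) {X U : Fin 5 → R}
    (h : ∀ e : Fin 7, e ≠ 1 → e ≠ 6 → cube y z e X = cube y z e U) : X = U :=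
  Same.eq (r16 H (h 0 (by decide) (by decide)) (h 2 (by decide) (by decide)) (h 3 (by decide) (by decide)) (h 4 (by decide) (by decide)) (h 5 (by decide) (by decide)))

lemma j23 (H : Sys R y z) {X U : Fin 5 → R}
    (h : ∀ e : Fin 7, e ≠ 2 → e ≠ 3 → cube y z e X = cube y z e U) : X = U :=
  Same.eq (r23 H (h 0 (by decide) (by decide)) (h 1 (by decide) (by decide)) (h 4 (by decide) (by decide)) (h 5 (by decide) (by decide)) (h 6 (by decide) (by decide)))

lemma j24 (H : Sys R y z) {X U : Fin 5 → R}
    (h : ∀ e : Fin 7, e ≠ 2 → e ≠ 4 → cube y z e X = cube y z e U) : X = U :=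
  Same.eq (r24 H (h 0 (by decide) (by decide)) (h 1 (by decide) (by decide)) (h 3 (by decide) (by decide)) (h 5 (by decide) (by decide)) (h 6 (by decide) (by decide)))

lemma j25 (H : Sys R y z) {X U : Fin 5 → R}
    (h : ∀ e : Fin 7, e ≠ 2 → e ≠ 5 → cube y z e X = cube y z e U) : X = U :=
  Same.eq (r25 H (h 0 (by decide) (by decide)) (h 1 (by decide) (by decide)) (h 3 (by decide) (by decide)) (h 4 (by decide) (by decide)) (h 6 (by decide) (by decide)))

lemma j26 (H : Sys R y z) {X U : Fin 5 → R}
    (h : ∀ e : Fin 7, e ≠ 2 → e ≠ 6 → cube y z e X = cube y z e U) : X = U :=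
  Same.eq (r26 H (h 0 (by decide) (by decide)) (h 1 (by decide) (by decide)) (h 3 (by decide) (by decide)) (h 4 (by decide) (by decide)) (h 5 (by decide) (by decide)))

lemma j34 (H : Sys R y z) {X U : Fin 5 → R}
    (h : ∀ e : Fin 7, e ≠ 3 → e ≠ 4 → cube y z e X = cube y z e U) : X = U :=
  Same.eq (r34 H (h 0 (by decide) (by decide)) (h 1 (by decide) (by decide)) (h 2 (by decide) (by decide)) (h 5 (by decide) (by decide)) (h 6 (by decide) (by decide)))

lemma j35 (H : Sys R y z) {X U : Fin 5 → R}
    (h : ∀ e : Fin 7, e ≠ 3 → e ≠ 5 → cube y z e X = cube y z e U) : X = U :=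
  Same.eq (r35 H (h 0 (by decide) (by decide)) (h 1 (by decide) (by decide)) (h 2 (by decide) (by decide)) (h 4 (by decide) (by decide)) (h 6 (by decide) (by decide)))

lemma j36 (H : Sys R y z) {X U : Fin 5 → R}
    (h : ∀ e : Fin 7, e ≠ 3 → e ≠ 6 → cube y z e X = cube y z e U) : X = U :=
  Same.eq (r36 H (h 0 (by decide) (by decide)) (h 1 (by decide) (by decide)) (h 2 (by decide) (by decide)) (h 4 (by decide) (by decide)) (h 5 (by decide) (by decide)))

lemma j45 (H : Sys R y z) {X U : Fin 5 → R}
    (h : ∀ e : Fin 7, e ≠ 4 → e ≠ 5 → cube y z e X = cube y z e U) : X = U :=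
  Same.eq (r45 H (h 0 (by decide) (by decide)) (h 1 (by decide) (by decide)) (h 2 (by decide) (by decide)) (h 3 (by decide) (by decide)) (h 6 (by decide) (by decide)))

lemma j46 (H : Sys R y z) {X U : Fin 5 → R}
    (h : ∀ e : Fin 7, e ≠ 4 → e ≠ 6 → cube y z e X = cube y z e U) : X = U :=
  Same.eq (r46 H (h 0 (by decide) (by decide)) (h 1 (by decide) (by decide)) (h 2 (by decide) (by decide)) (h 3 (by decide) (by decide)) (h 5 (by decide) (by decide)))

lemma j56 (H : Sys R y z) {X U : Fin 5 → R}
    (h : ∀ e : Fin 7, e ≠ 5 → e ≠ 6 → cube y z e X = cube y z e U) : X = U :=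
  Same.eq (r56 H (h 0 (by decide) (by decide)) (h 1 (by decide) (by decide)) (h 2 (by decide) (by decide)) (h 3 (by decide) (by decide)) (h 4 (by decide) (by decide)))

lemma joint_lt (H : Sys R y z) (p q : Fin 7) (hpq : p < q) {X U : Fin 5 → R}
    (h : ∀ e : Fin 7, e ≠ p → e ≠ q → cube y z e X = cube y z e U) : X = U := by
  fin_cases p <;> fin_cases q <;>
    first
    | exact absurd hpq (by decide)
    | exact j01 H h
    | exact j02 H h
    | exact j03 H h
    | exact j04 H h
    | exact j05 H h
    | exact j06 H h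
    | exact j12 H h
    | exact j13 H h
    | exact j14 H h
    | exact j15 H h
    | exact j16 H h
    | exact j23 H h
    | exact j24 H h
    | exact j25 H h
    | exact j26 H h
    | exact j34 H h
    | exact j35 H h
    | exact j36 H h
    | exact j45 H h
    | exact j46 H h
    | exact j56 H h

theorem isVarSet [Finite R] (H : Sys R y z) : IsVarSet (cube y z) := by
  refine ⟨fun e X i => Finite.injective_iff_bijective.1 (perm H e X i), fun s hs => ?_⟩
  refine Finite.injective_iff_bijective.1 fun X U h => ?_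
  have hc : ((univ.image s)ᶜ : Finset (Fin 7)).card = 2 := by
    rw [card_compl, card_image_of_injective _ hs]
    simp
  obtain ⟨p, q, hpq, hs2⟩ := card_eq_two.1 hc
  have hall : ∀ e : Fin 7, e ≠ p → e ≠ q → cube y z e X = cube y z e U := by
    intro e h1 h2
    have he : e ∈ univ.image s := by
      by_contra hcon
      have : e ∈ ((univ.image s)ᶜ : Finset (Fin 7)) := mem_compl.2 hcon
      rw [hs2, mem_insert, mem_singleton] at this
      rcases this with h' | h'
      · exact h1 h'
      · exact h2 h'
    obtain ⟨i, -, rfl⟩ := mem_image.1 he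
    exact congrFun h i
  rcases lt_or_gt_of_ne hpq with h1 | h1
  · exact joint_lt H p q h1 hall
  · exact joint_lt H q p h1 fun e h2 h3 => hall e h3 h2

theorem hasVarSet [Finite R] (H : Sys R y z) : HasVarSet 5 (Nat.card R) 7 := by
  classical
  have := Fintype.ofFinite R
  have h := Pool.Agent.Results.MP_c7a479_co.VarSets.hasVarSet_of (isVarSet H)
  rwa [Fintype.card_fin, ← Nat.card_eq_fintype_card] at h

end Pool.Agent.H59.PC
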