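import Pool.Agent.H59.PC.Seven
import Pool.Agent.H58.DM.Asm

/-!
# Systems of nine permutations given by tables
-/

set_option autoImplicit false

open Function Finset
open Pool.Agent.Results.MP_c7a479_co.VarSets (HasVarSet)
open Pool.Agent.H58.DM (okL inj_of_okL)

namespace Pool.Agent.H59.PC

/-- the values of `f` modulo `n` -/
def lst (n : ℕ) (f : ℕ → ℕ) : List ℕ := (List.range n).map fun j => f j % n

lemma getD_lst {n : ℕ} {f : ℕ → ℕ} {j : ℕ} (hj : j < n) : (lst n f).getD j 0 = f j % n := by
  have h1 : j < (lst n f).length := by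
    rw [lst, List.length_map, List.length_range]; exact hj
  rw [List.getD_eq_getElem _ _ h1]
  simp only [lst, List.getElem_map, List.getElem_range]

lemma inj_of_lst {n : ℕ} [NeZero n] {f : ℕ → ℕ} (h : okL n (lst n f) = true)
    {g : ZMod n → ZMod n} (hg : ∀ j, g j = (f j.val : ZMod n)) : Injective g :=
  inj_of_okL h fun j => by rw [hg, getD_lst (ZMod.val_lt j), ZMod.natCast_mod]

/-- the check for a pair of tables of length `m + 1` -/
def ok (m : ℕ) (ys zs : List ℕ) : Bool :=
  okL (m + 1) (lst (m + 1) fun j => ys.getD j 0) &&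
  (okL (m + 1) (lst (m + 1) fun j => zs.getD j 0) &&
  (okL (m + 1) (lst (m + 1) fun j => j + m * ys.getD j 0) &&
  (okL (m + 1) (lst (m + 1) fun j => j + m * zs.getD j 0) &&
  (okL (m + 1) (lst (m + 1) fun j => ys.getD j 0 + m * zs.getD j 0) &&
  (okL (m + 1) (lst (m + 1) fun j => j + m * ys.getD j 0 + m * zs.getD j 0) &&
  (okL (m + 1) (lst (m + 1) fun j => j + m * ys.getD j 0 + zs.getD j 0) &&
  (okL (m + 1) (lst (m + 1) fun j => j + ys.getD j 0 + m * zs.getD j 0))))))))

theorem hasVarSet_table (m : ℕ) (ys zs : List ℕ) (h : ok m ys zs = true) :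
    HasVarSet 5 (m + 1) 7 := by
  simp only [ok, Bool.and_eq_true] at h
  obtain ⟨h1, h2, h3, h4, h5, h6, h7, h8⟩ := h
  have hm : ((m : ℕ) : ZMod (m + 1)) = -1 := by
    have := ZMod.natCast_self (m + 1)
    push_cast at this
    linear_combination this
  have H : Sys (ZMod (m + 1)) (fun j => (ys.getD j.val 0 : ℕ)) (fun j => (zs.getD j.val 0 : ℕ)) :=
    { hy := inj_of_lst h1 fun j => rfl
      hz := inj_of_lst h2 fun j => rfl
      hxy := inj_of_lst h3 fun j => by
        push_cast; rw [hm, ZMod.natCast_zmod_val]; ring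
      hxz := inj_of_lst h4 fun j => by
        push_cast; rw [hm, ZMod.natCast_zmod_val]; ring
      hyz := inj_of_lst h5 fun j => by
        push_cast; rw [hm]; ring
      h1 := inj_of_lst h6 fun j => by
        push_cast; rw [hm, ZMod.natCast_zmod_val]; ring
      h2 := inj_of_lst h7 fun j => by
        push_cast; rw [hm, ZMod.natCast_zmod_val]; ring
      h3 := inj_of_lst h8 fun j => by
        push_cast; rw [hm, ZMod.natCast_zmod_val]; ring }
  have h := hasVarSet H
  rwa [Nat.card_eq_fintype_card, ZMod.card] at h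

end Pool.Agent.H59.PC
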